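import Pool.Agent.Results.MP_05992d_an.OmegaAttained

namespace Pool.Agent.Variants.MP_05992d_an.OmegaEqGamma

open Pool.Agent.Lib.MP_05992d_an

/-- The earlier hand-in (the question as posed), derived from the attained form. -/
theorem result {X : Type*} [NormedAddCommGroup X] [NormedSpace ℂ X] [CompleteSpace X]
    (T : StrongDual ℂ X → StrongDual ℂ X → StrongDual ℂ X → StrongDual ℂ X)
    (hT : IsJBWStarTriple T) (A : Set X) (hA : Bornology.IsBounded A) :
    deBlasi A = gamma T A := by
  obtain ⟨⟨e, e1, e2, e3⟩, h⟩ := Pool.Agent.Results.MP_05992d_an.OmegaAttained.result T hT A hA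
  exact le_antisymm (le_iSup_of_le e (le_iSup_of_le e1 (le_iSup_of_le e2 (by exact e3.ge))))
    (iSup_le fun e => iSup_le fun e1 => iSup_le fun e2 => h ⟨e, e1, e2, rfl⟩)

end Pool.Agent.Variants.MP_05992d_an.OmegaEqGamma
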